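import Mathlib

/-!
# Statement sheet MU: a closed set in Baire space that is not Muchnik equivalent to a closed set in
Cantor space (frozen statement S15181)
-/

set_option autoImplicit false

namespace Pool.Agent.Helper14.MU

/-- the first `n` values -/
def pre (x : ℕ → ℕ) (n : ℕ) : List ℕ := (List.range n).map x

/-- the member of `PG G` with parameter `x` -/
def hG (G : List ℕ → ℕ) (x : ℕ → ℕ) : ℕ → ℕ := fun n => Nat.pair (x n) (G (pre x (n + 1)))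

/-- the closed set -/
def PG (G : List ℕ → ℕ) : Set (ℕ → ℕ) := Set.range (hG G)

/-- finite conditions on `G` -/
abbrev Cn : Type := List (List ℕ × ℕ)

/-- `G` satisfies the condition -/
def sat (c : Cn) (G : List ℕ → ℕ) : Prop := ∀ q ∈ c, G q.1 = q.2

/-- `x` extends `s` -/
def cyl (s : List ℕ) (x : ℕ → ℕ) : Prop := pre x s.length = s

/-- a countable family of continuous partial functionals to Cantor space -/
structure Fam (Φ : ℕ → (ℕ → ℕ) → ℕ → Bool → Prop) : Prop where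
  fn : ∀ e p n b b', Φ e p n b → Φ e p n b' → b = b'
  ct : ∀ e p n b, Φ e p n b → ∃ k, ∀ p' : ℕ → ℕ, (∀ i < k, p' i = p i) → Φ e p' n b

/-- the condition `c` forces that `Φ e` is total on a dense subset of the cylinder of `s` -/
def FT (Φ : ℕ → (ℕ → ℕ) → ℕ → Bool → Prop) (c : Cn) (e : ℕ) (s : List ℕ) : Prop :=
  ∀ G₀, sat c G₀ → ∀ D : Finset (List ℕ), ∀ t, s <+: t → ∀ n,
    ∃ G, (∀ l ∈ D, G l = G₀ l) ∧ ∃ x, cyl t x ∧ ∃ b, Φ e (hG G x) n b

/-- all nonempty prefixes of `s` are decided by `c` -/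
def DP (c : Cn) (s : List ℕ) : Prop := ∀ l, l ≠ [] → l <+: s → ∃ v, (l, v) ∈ c

/-- row COD: the oracle computations. Codes for `Nat.RecursiveIn` (an inductive type with
constructors zero succ left right oracle pair comp prec rfind; countable), evaluation, use
principle by induction; `Φ e p n b` iff some `v ∈ eval e p n` has `b = decide (v ≠ 0)`. -/
def ST_COD : Prop := ∃ Φ : ℕ → (ℕ → ℕ) → ℕ → Bool → Prop, Fam Φ ∧
  (∀ (x : ℕ → ℕ) (y : ℕ → Bool),
    TuringReducible (PFun.lift (fun n => (y n).toNat)) (PFun.lift x) → ∃ e, ∀ n, Φ e x n (y n)) ∧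
  ∀ y : ℕ → Bool,
    {x : ℕ → ℕ | TuringReducible (PFun.lift x) (PFun.lift (fun n => (y n).toNat))}.Countable

/-- row CLO: the condition at each `n` is clopen. -/
def ST_CLO : Prop := ∀ G : List ℕ → ℕ, IsClosed (PG G)

/-- row LIM: for each `m` there are `G, x` with `sat c G`, `x` above `s ++ [m]` and `Φ e` defined
below `m` (induction with `ct`, `FT` with `t` a long prefix of `x` and `D` = prefixes of `x` and
lists of `c`), with values `ρ m`; take a cluster point of `ρ` in `ℕ → Bool`. -/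
def ST_LIM : Prop := ∀ (Φ : ℕ → (ℕ → ℕ) → ℕ → Bool → Prop), Fam Φ → ∀ (c : Cn) (e : ℕ)
  (s : List ℕ), FT Φ c e s → (∃ G, sat c G) → ∃ q : ℕ → Bool, ∀ l m : ℕ, ∃ k ≥ m, ∃ G,
    sat c G ∧ ∃ x, cyl (s ++ [k]) x ∧ ∀ i < l, Φ e (hG G x) i (q i)

/-- row DEN: take `m` larger than all entries of all lists in `D` and `c`; let `G` be the function of
the hypothesis on the lists that extend `s ++ [k]` and `G₀` on all others. -/
def ST_DEN : Prop := ∀ (Φ : ℕ → (ℕ → ℕ) → ℕ → Bool → Prop) (c : Cn) (e : ℕ)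
  (s : List ℕ) (q : ℕ → Bool), DP c s → (∀ l m : ℕ, ∃ k ≥ m, ∃ G,
    sat c G ∧ ∃ x, cyl (s ++ [k]) x ∧ ∀ i < l, Φ e (hG G x) i (q i)) →
  ∀ G₀, sat c G₀ → ∀ (D : Finset (List ℕ)) (l : ℕ), ∃ G, (∀ a ∈ D, G a = G₀ a) ∧ sat c G ∧
    ∃ x, cyl s x ∧ ∀ i < l, Φ e (hG G x) i (q i)

/-- row GE1: for a countable set `C` of functions, generic `G` satisfies `f ∉ PG G`. -/
def ST_GE1 : Prop := ∀ C : Set (ℕ → ℕ), C.Countable → ∀ᶠ G in residual (List ℕ → ℕ),
  ∀ f ∈ C, f ∉ PG G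

/-- row GE2: for generic `G`: totality on a dense set is forced. (`W t n` = the open set of the `G`
with a value at `n` for some `x` above `t`; `G` is not in the frontier of the union of the
exteriors of the `W t n`.) -/
def ST_GE2 : Prop := ∀ (Φ : ℕ → (ℕ → ℕ) → ℕ → Bool → Prop), Fam Φ →
  ∀ᶠ G in residual (List ℕ → ℕ), ∀ (e : ℕ) (s : List ℕ),
    (∀ t, s <+: t → ∀ n, ∃ x, cyl t x ∧ ∃ b, Φ e (hG G x) n b) →
    ∃ c, sat c G ∧ DP c s ∧ FT Φ c e s

/-- row GE3 -/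
def ST_GE3 : Prop := ∀ (Φ : ℕ → (ℕ → ℕ) → ℕ → Bool → Prop), Fam Φ →
  ∀ (c : Cn) (e : ℕ) (s : List ℕ) (q : ℕ → Bool),
  (∀ G₀, sat c G₀ → ∀ (D : Finset (List ℕ)) (l : ℕ), ∃ G, (∀ a ∈ D, G a = G₀ a) ∧ sat c G ∧
    ∃ x, cyl s x ∧ ∀ i < l, Φ e (hG G x) i (q i)) →
  ∀ᶠ G in residual (List ℕ → ℕ), sat c G → ∀ l : ℕ, ∃ x, cyl s x ∧ ∀ i < l, Φ e (hG G x) i (q i)

/-- row BAI: Baire category on `ℕ → ℕ` -/
def ST_BAI : Prop := ∀ (R : ℕ → (ℕ → ℕ) → Prop), (∀ x, ∃ e, R e x) →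
  ∃ (e : ℕ) (s : List ℕ), ∀ t, s <+: t → ∃ x, cyl t x ∧ R e x

/-- row FIN: the assembly -/
def ST_FIN : Prop := ∃ P : Set (ℕ → ℕ), IsClosed P ∧
  ∀ Q : Set (ℕ → Bool), IsClosed Q →
    ¬ ((∀ x ∈ P, ∃ y ∈ Q,
          TuringReducible (PFun.lift (fun n => (y n).toNat)) (PFun.lift x)) ∧
       (∀ y ∈ Q, ∃ x ∈ P,
          TuringReducible (PFun.lift x) (PFun.lift (fun n => (y n).toNat))))

end Pool.Agent.Helper14.MU
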